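import Mathlib

/-!
# The automaton argument behind the local loop lemma for odd cycles

Let `f` be an idempotent operation compatible with `R`.  Suppose we have a deterministic complete
automaton with states `S`, letters `Fin n`, and a colouring `x : S → A` such that every state is
`R`-related to `f` of the colours of its `n` successors.  If all words of some length `m`
synchronise the colour, then `R` has a loop.

We then build such an automaton: it remembers a window of the last `K` letters, walks in the odd
cycle, pauses at the base point as long as the window stays periodic with a small period, and starts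
a resynchronising walk whenever a non-periodic window of high enough priority shows up.
-/

namespace Pool.Agent.J6H42.LocalLoop

section Abstract

variable {A : Type*} {n : ℕ} {S : Type*}

/-- iterated application of `f` along the automaton -/
def iter (f : (Fin n → A) → A) (step : S → Fin n → S) (x : S → A) : ℕ → S → A
  | 0 => x
  | (k+1) => fun s => f (fun j => iter f step x k (step s j))

theorem loop_of_automaton (R : A → A → Prop) (f : (Fin n → A) → A)
    (idem : ∀ a, f (fun _ => a) = a)
    (compat : ∀ x y : Fin n → A, (∀ i, R (x i) (y i)) → R (f x) (f y))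
    (Inv : S → Prop) (step : S → Fin n → S) (hInv : ∀ s j, Inv s → Inv (step s j))
    (x : S → A) (hx : ∀ s, Inv s → R (x s) (f fun j => x (step s j)))
    (s0 : S) (hs0 : Inv s0) (m : ℕ)
    (sync : ∀ s s' (w : List (Fin n)), Inv s → Inv s' → w.length = m →
        x (w.foldl step s) = x (w.foldl step s')) : ∃ a, R a a := by
  have h1 : ∀ k s, Inv s → R (iter f step x k s) (iter f step x (k+1) s) := by
    intro k
    induction k with
    | zero => intro s hs; exact hx s hs
    | succ k ih => intro s hs; exact compat _ _ fun j => ih _ (hInv s j hs)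
  have h2 : ∀ k s s', (∀ w : List (Fin n), w.length = k →
      x (w.foldl step s) = x (w.foldl step s')) →
      iter f step x k s = iter f step x k s' := by
    intro k
    induction k with
    | zero => intro s s' h; exact h [] rfl
    | succ k ih =>
      intro s s' h
      show f _ = f _
      congr 1
      funext j
      exact ih _ _ fun w hw => h (j :: w) (by simp [hw])
  refine ⟨iter f step x m s0, ?_⟩
  have h3 := h1 m s0 hs0
  have h4 : iter f step x (m+1) s0 = iter f step x m s0 := by
    show f _ = _
    have : (fun j => iter f step x m (step s0 j)) = fun _ => iter f step x m s0 := by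
      funext j
      exact h2 m _ _ fun w hw => sync _ _ w (hInv _ _ hs0) hs0 hw
    rw [this, idem]
  rwa [h4] at h3

end Abstract

section Automaton

variable {n : ℕ} {K : ℕ}

/-- push a new letter into the window; position `0` is the most recent letter -/
def push (h : Fin K → Fin n) (x : Fin n) : Fin K → Fin n :=
  fun i => if (i : ℕ) = 0 then x else h ⟨(i : ℕ) - 1, by omega⟩

/-- push a list of letters -/
def pushes (h : Fin K → Fin n) (w : List (Fin n)) : Fin K → Fin n := w.foldl push h

theorem pushes_append (h : Fin K → Fin n) (u v : List (Fin n)) :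
    pushes h (u ++ v) = pushes (pushes h u) v := by
  simp [pushes, List.foldl_append]

theorem pushes_shift (w : List (Fin n)) : ∀ (h : Fin K → Fin n) (i j : Fin K),
    (j : ℕ) = i + w.length → pushes h w j = h i := by
  induction w with
  | nil => intro h i j hij; simp [pushes]; congr 1; ext; simpa using hij
  | cons x w ih =>
    intro h i j hij
    have hij' : (j : ℕ) = i + (w.length + 1) := by simpa using hij
    have hj : (i : ℕ) + 1 < K := by omega
    have := ih (push h x) ⟨i + 1, hj⟩ j (by simp; omega)
    have e : pushes h (x :: w) = pushes (push h x) w := rfl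
    rw [e, this]
    simp [push]

theorem pushes_agree (w : List (Fin n)) : ∀ (h h' : Fin K → Fin n) (a : ℕ),
    (∀ i : Fin K, (i : ℕ) < a → h i = h' i) →
    ∀ i : Fin K, (i : ℕ) < a + w.length → pushes h w i = pushes h' w i := by
  induction w with
  | nil => intro h h' a H i hi; simp [pushes]; exact H i (by simpa using hi)
  | cons x w ih =>
    intro h h' a H i hi
    have e : ∀ g : Fin K → Fin n, pushes g (x :: w) = pushes (push g x) w := fun g => rfl
    rw [e, e]
    refine ih _ _ (a + 1) ?_ i (by simp at hi; omega)
    intro i hi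
    simp only [push]
    split_ifs with h0
    · rfl
    · exact H _ (by simp; omega)

theorem pushes_eq (h h' : Fin K → Fin n) (w : List (Fin n)) (hw : K ≤ w.length) :
    pushes h w = pushes h' w := by
  funext i
  exact pushes_agree w h h' 0 (fun i hi => absurd hi (by omega)) i (by omega)

/-- The window has a period smaller than `L`. -/
def Per (L : ℕ) (h : Fin K → Fin n) : Prop :=
  ∃ p, 1 ≤ p ∧ p < L ∧ ∀ i j : Fin K, (j : ℕ) = i + p → h i = h j

theorem per_unique {L : ℕ} (hK : 2 * L ≤ K) (h : Fin K → Fin n) (x y : Fin n)
    (hx : Per L (push h x)) (hy : Per L (push h y)) : x = y := by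
  obtain ⟨p, hp1, hpL, hp⟩ := hx
  obtain ⟨q, hq1, hqL, hq⟩ := hy
  have e1 : x = h ⟨p - 1, by omega⟩ := by
    have := hp ⟨0, by omega⟩ ⟨p, by omega⟩ (by simp)
    simpa [push, show p ≠ 0 by omega] using this
  have e2 : y = h ⟨q - 1, by omega⟩ := by
    have := hq ⟨0, by omega⟩ ⟨q, by omega⟩ (by simp)
    simpa [push, show q ≠ 0 by omega] using this
  have e3 : h ⟨p - 1, by omega⟩ = h ⟨p + q - 1, by omega⟩ := by
    have := hq ⟨p, by omega⟩ ⟨p + q, by omega⟩ (by simp)
    simpa [push, show p ≠ 0 by omega, show q ≠ 0 by omega] using this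
  have e4 : h ⟨q - 1, by omega⟩ = h ⟨p + q - 1, by omega⟩ := by
    have := hp ⟨q, by omega⟩ ⟨p + q, by omega⟩ (by simp; omega)
    simpa [push, show p ≠ 0 by omega, show q ≠ 0 by omega] using this
  rw [e1, e2, e3, e4]

theorem sep {L : ℕ} (h : Fin K → Fin n) (hh : ¬ Per L h) (w : List (Fin n))
    (h1 : 1 ≤ w.length) (h2 : w.length < L) : pushes h w ≠ h := by
  intro e
  apply hh
  refine ⟨w.length, h1, h2, fun i j hij => ?_⟩
  rw [← pushes_shift w h i j hij, e]

/-- States: window, rank of the event being executed, number of remaining steps, lifted colour. -/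
structure St (n K : ℕ) where
  h : Fin K → Fin n
  r : ℕ
  ρ : ℕ
  k : ℤ

/-- change the lift of a colour so that it becomes even -/
def relift (l : ℕ) (k : ℤ) : ℤ := if Even k then k else if 0 < k then k - l else k + l

/-- one step towards zero (bouncing from `0` to `1`) -/
def towards (k : ℤ) : ℤ := if 0 < k then k - 1 else k + 1

/-- the rank of a window -/
noncomputable def idx (h : Fin K → Fin n) : ℕ := (Fintype.equivFin (Fin K → Fin n) h : ℕ)

theorem idx_inj {h h' : Fin K → Fin n} (e : idx h = idx h') : h = h' := by
  apply (Fintype.equivFin (Fin K → Fin n)).injective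
  exact Fin.ext e

theorem idx_lt (h : Fin K → Fin n) : idx h < Fintype.card (Fin K → Fin n) :=
  (Fintype.equivFin (Fin K → Fin n) h).2

open Classical in
/-- the transition function -/
noncomputable def step (L l : ℕ) (s : St n K) (x : Fin n) : St n K :=
  if s.ρ = 0 then
    if Per L (push s.h x) then ⟨push s.h x, 0, 0, 0⟩
    else ⟨push s.h x, idx (push s.h x), L, relift l 1⟩
  else if ¬ Per L (push s.h x) ∧ (idx (push s.h x) ≤ s.r ∨ s.ρ = 1) then
    ⟨push s.h x, idx (push s.h x), L, relift l (towards s.k)⟩
  else ⟨push s.h x, s.r, s.ρ - 1, towards s.k⟩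

/-- the invariant -/
def Inv (L : ℕ) (s : St n K) : Prop :=
  -(s.ρ : ℤ) ≤ s.k ∧ s.k ≤ s.ρ ∧ s.ρ ≤ L ∧ Even ((s.ρ : ℤ) - s.k)

theorem step_h (L l : ℕ) (s : St n K) (x : Fin n) : (step L l s x).h = push s.h x := by
  unfold step
  split_ifs <;> rfl

theorem relift_spec {L l : ℕ} (hl : Odd l) (hL : Even L) (hlL : l ≤ L) (k : ℤ)
    (h1 : -(L : ℤ) ≤ k) (h2 : k ≤ L) :
    -(L : ℤ) ≤ relift l k ∧ relift l k ≤ L ∧ Even ((L : ℤ) - relift l k) := by
  have hl' : Odd (l : ℤ) := by exact_mod_cast hl
  have hL' : Even (L : ℤ) := by exact_mod_cast hL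
  have hlL' : (l : ℤ) ≤ L := by exact_mod_cast hlL
  have hl0 : 0 < l := hl.pos
  unfold relift
  split_ifs with he hk
  · exact ⟨h1, h2, hL'.sub he⟩
  · refine ⟨by omega, by omega, hL'.sub ?_⟩
    exact (Int.not_even_iff_odd.1 he).sub_odd hl'
  · have : k ≠ 0 := by rintro rfl; exact he (by simp)
    refine ⟨by omega, by omega, hL'.sub ?_⟩
    exact (Int.not_even_iff_odd.1 he).add_odd hl'

theorem step_inv {L l : ℕ} (hl : Odd l) (hL : Even L) (hlL : l ≤ L) (s : St n K) (x : Fin n)
    (hs : Inv L s) : Inv L (step L l s x) := by
  obtain ⟨h1, h2, h3, h4⟩ := hs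
  have hl0 : 0 < l := hl.pos
  have hL0 : 0 < L := by omega
  unfold step
  split_ifs with hρ hper hc
  · exact ⟨by simp, by simp, by simp, by simp⟩
  · obtain ⟨a, b, c⟩ := relift_spec hl hL hlL 1 (by omega) (by omega)
    exact ⟨a, b, le_rfl, c⟩
  · have ht : -(L : ℤ) ≤ towards s.k ∧ towards s.k ≤ L := by
      unfold towards
      split_ifs with hk
      · omega
      · have : s.k ≠ 0 ∨ s.ρ ≠ 1 := by
          by_contra hcon
          push Not at hcon
          rw [hcon.1, hcon.2] at h4
          revert h4; decide
        omega
    obtain ⟨a, b, c⟩ := relift_spec hl hL hlL _ ht.1 ht.2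
    exact ⟨a, b, le_rfl, c⟩
  · have hρ1 : 1 ≤ s.ρ := by omega
    unfold Inv towards
    have e : ((s.ρ - 1 : ℕ) : ℤ) = (s.ρ : ℤ) - 1 := by push_cast [hρ1]; ring
    simp only [e]
    split_ifs with hk
    · refine ⟨by omega, by omega, by omega, ?_⟩
      have : (s.ρ : ℤ) - 1 - (s.k - 1) = s.ρ - s.k := by ring
      rw [this]; exact h4
    · obtain ⟨z, hz⟩ := h4
      refine ⟨by omega, by omega, by omega, z - 1, by omega⟩

/-- run the automaton -/
noncomputable def run (L l : ℕ) (s : St n K) (w : List (Fin n)) : St n K := w.foldl (step L l) s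

theorem run_append (L l : ℕ) (s : St n K) (u v : List (Fin n)) :
    run L l s (u ++ v) = run L l (run L l s u) v := by
  simp [run, List.foldl_append]

theorem run_snoc (L l : ℕ) (s : St n K) (u : List (Fin n)) (x : Fin n) :
    run L l s (u ++ [x]) = step L l (run L l s u) x := by
  simp [run, List.foldl_append]

theorem run_h (L l : ℕ) (s : St n K) (w : List (Fin n)) :
    (run L l s w).h = pushes s.h w := by
  induction w using List.reverseRecOn with
  | nil => rfl
  | append_singleton u x ih => rw [run_snoc, step_h, ih, pushes_append]; rfl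

theorem run_inv {L l : ℕ} (hl : Odd l) (hL : Even L) (hlL : l ≤ L) (s : St n K)
    (w : List (Fin n)) (hs : Inv L s) : Inv L (run L l s w) := by
  induction w using List.reverseRecOn with
  | nil => exact hs
  | append_singleton u x ih => rw [run_snoc]; exact step_inv hl hL hlL _ _ ih

/-- Two states that behave in the same way. -/
def Eqv (s s' : St n K) : Prop := s.h = s'.h ∧ s.ρ = s'.ρ ∧ s.k = s'.k ∧ (s.ρ = 0 ∨ s.r = s'.r)

theorem Eqv.step {L l : ℕ} {s s' : St n K} (h : Eqv s s') (x : Fin n) :
    Eqv (step L l s x) (step L l s' x) := by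
  obtain ⟨h1, h2, h3, h4⟩ := h
  have : LocalLoop.step L l s x = LocalLoop.step L l s' x := by
    unfold LocalLoop.step
    rw [← h1, ← h2, ← h3]
    by_cases hρ : s.ρ = 0
    · simp [hρ]
    · rw [← h4.resolve_left hρ]
  rw [this]
  exact ⟨rfl, rfl, rfl, Or.inr rfl⟩

theorem Eqv.run {L l : ℕ} {s s' : St n K} (h : Eqv s s') (w : List (Fin n)) :
    Eqv (run L l s w) (run L l s' w) := by
  induction w using List.reverseRecOn with
  | nil => exact h
  | append_singleton u x ih => rw [run_snoc, run_snoc]; exact ih.step x

/-- No non-periodic window of rank `< i` occurs while reading `w` from the window `h`. -/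
def Good (L i : ℕ) (h : Fin K → Fin n) (w : List (Fin n)) : Prop :=
  ∀ u, u <+: w → u ≠ [] → Per L (pushes h u) ∨ i ≤ idx (pushes h u)

theorem Good.left {L i : ℕ} {h : Fin K → Fin n} {u v : List (Fin n)}
    (H : Good L i h (u ++ v)) : Good L i h u := fun a ha hne =>
  H a (ha.trans (List.prefix_append u v)) hne

theorem Good.right {L i : ℕ} {h : Fin K → Fin n} {u v : List (Fin n)}
    (H : Good L i h (u ++ v)) : Good L i (pushes h u) v := fun a ha hne => by
  have := H (u ++ a) (by obtain ⟨b, rfl⟩ := ha; exact ⟨b, by simp⟩) (by simp [hne])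
  rwa [pushes_append] at this

theorem Good.last {L i : ℕ} {h : Fin K → Fin n} {u : List (Fin n)} {x : Fin n}
    (H : Good L i h (u ++ [x])) : Per L (push (pushes h u) x) ∨ i ≤ idx (push (pushes h u) x) := by
  have := H (u ++ [x]) (List.prefix_refl _) (by simp)
  rwa [pushes_append] at this

/-- leftover executions of small rank expire -/
theorem expire {L l i : ℕ} (s : St n K) (hs : s.ρ ≤ L) (w : List (Fin n))
    (H : Good L i s.h w) :
    (run L l s w).ρ = 0 ∨ i ≤ (run L l s w).r ∨ (run L l s w).ρ + w.length ≤ L := by
  induction w using List.reverseRecOn with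
  | nil => right; right; simpa [run] using hs
  | append_singleton u x ih =>
    have ih := ih H.left
    have hl := H.last
    rw [← run_h L l] at hl
    rw [run_snoc]
    generalize run L l s u = t at ih hl ⊢
    unfold step
    split_ifs with h1 h2 h3
    · left; rfl
    · right; left; exact hl.resolve_left h2
    · right; left; exact hl.resolve_left h3.1
    · rcases ih with ih | ih | ih
      · exact absurd ih h1
      · right; left; exact ih
      · right; right
        simp only [List.length_append, List.length_singleton]
        omega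

/-- Once the state is idle or executes an event of rank at least `i`, this remains so. -/
theorem keep {L l i : ℕ} (s : St n K) (w : List (Fin n)) (H : Good L i s.h w)
    (hs : s.ρ = 0 ∨ i ≤ s.r) : (run L l s w).ρ = 0 ∨ i ≤ (run L l s w).r := by
  induction w using List.reverseRecOn with
  | nil => exact hs
  | append_singleton u x ih =>
    have ih := ih H.left
    have hl := H.last
    rw [← run_h L l] at hl
    rw [run_snoc]
    generalize run L l s u = t at ih hl ⊢
    unfold step
    split_ifs with h1 h2 h3
    · left; rfl
    · right; exact hl.resolve_left h2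
    · right; exact hl.resolve_left h3.1
    · right; exact ih.resolve_left h1

/-- an event of rank `i` is executed -/
theorem trigger {L l i : ℕ} (s : St n K) (x : Fin n) (hs : s.ρ = 0 ∨ i ≤ s.r)
    (hper : ¬ Per L (push s.h x)) (hi : idx (push s.h x) = i) :
    (step L l s x).r = i ∧ (step L l s x).ρ = L := by
  unfold step
  split_ifs with h1 h3
  · exact ⟨hi, rfl⟩
  · exact ⟨hi, rfl⟩
  · exact absurd ⟨hper, Or.inl (hi.trans_le (hs.resolve_left h1))⟩ h3

/-- execution of an event -/
theorem exec {L l i : ℕ} (s : St n K) (hr : s.r = i) (hρ : s.ρ = L) (hper : ¬ Per L s.h)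
    (hi : idx s.h = i) (w : List (Fin n)) (hw : w.length < L) (H : Good L i s.h w) :
    (run L l s w).r = i ∧ (run L l s w).ρ + w.length = L := by
  induction w using List.reverseRecOn with
  | nil => exact ⟨hr, by simpa [run] using hρ⟩
  | append_singleton u x ih =>
    simp only [List.length_append, List.length_singleton] at hw
    obtain ⟨ih1, ih2⟩ := ih (by omega) H.left
    have hl := H.last
    have hsep := sep s.h hper (u ++ [x]) (by simp) (by simpa using hw)
    have hpu : pushes s.h (u ++ [x]) = push (pushes s.h u) x := by rw [pushes_append]; rfl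
    rw [hpu] at hsep
    rw [← run_h L l] at hl hsep
    rw [run_snoc]
    generalize run L l s u = t at ih1 ih2 hl hsep ⊢
    have hnt : ¬ (¬ Per L (push t.h x) ∧ (idx (push t.h x) ≤ t.r ∨ t.ρ = 1)) := by
      rintro ⟨ha, hb | hb⟩
      · have h1 := hl.resolve_left ha
        apply hsep
        apply idx_inj
        omega
      · omega
    have h0 : t.ρ ≠ 0 := by omega
    unfold step
    rw [if_neg h0, if_neg hnt]
    refine ⟨ih1, ?_⟩
    simp only [List.length_append, List.length_singleton]
    omega

/-- the end of an execution: the states coincide -/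
theorem finish {L l i : ℕ} (hl : Odd l) (hL : Even L) (hlL : l ≤ L)
    (s s' : St n K) (hI : Inv L s) (hI' : Inv L s') (hh : s.h = s'.h)
    (hr : s.r = i) (hρ : s.ρ = L) (hr' : s'.r = i) (hρ' : s'.ρ = L)
    (hper : ¬ Per L s.h) (hi : idx s.h = i) (w : List (Fin n)) (hw : w.length = L)
    (H : Good L i s.h w) : Eqv (run L l s w) (run L l s' w) := by
  have hl0 : 0 < l := hl.pos
  have hL0 : 0 < L := by omega
  obtain ⟨u, x, rfl⟩ : ∃ u x, w = u ++ [x] := by
    rcases List.eq_nil_or_concat w with h | ⟨u, x, h⟩
    · subst h; simp at hw; omega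
    · exact ⟨u, x, by simpa using h⟩
  simp only [List.length_append, List.length_singleton] at hw
  obtain ⟨a1, a2⟩ := exec (l := l) s hr hρ hper hi u (by omega) H.left
  obtain ⟨b1, b2⟩ := exec (l := l) s' hr' hρ' (hh ▸ hper) (hh ▸ hi) u (by omega) (hh ▸ H.left)
  have c1 := run_inv hl hL hlL s u hI
  have c2 := run_inv hl hL hlL s' u hI'
  have d : (run L l s u).h = (run L l s' u).h := by rw [run_h, run_h, hh]
  rw [run_snoc, run_snoc]
  generalize run L l s u = t at *
  generalize run L l s' u = t' at *
  have e1 : t.ρ = 1 := by omega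
  have e2 : t'.ρ = 1 := by omega
  have key : ∀ y : St n K, Inv L y → y.ρ = 1 → towards y.k = 0 := by
    rintro y ⟨y1, y2, _, y4⟩ y5
    rw [y5] at y1 y2 y4
    unfold towards
    obtain ⟨z, hz⟩ := y4
    push_cast at *
    split_ifs <;> omega
  have f1 := key t c1 e1
  have f2 := key t' c2 e2
  have : step L l t x = step L l t' x := by
    unfold step
    rw [f1, f2, e1, e2, d, a1, b1]
  rw [this]
  exact ⟨rfl, rfl, rfl, Or.inr rfl⟩

/-- calm input: everybody becomes idle -/
theorem calm {L l i : ℕ} (hl : Odd l) (hL : Even L) (hlL : l ≤ L)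
    (s s' : St n K) (hI : Inv L s) (hI' : Inv L s') (hh : s.h = s'.h)
    (hi : Fintype.card (Fin K → Fin n) ≤ i) (w : List (Fin n)) (hw : w.length = L)
    (H : Good L i s.h w) : Eqv (run L l s w) (run L l s' w) := by
  have key : ∀ s : St n K, Inv L s → Good L i s.h w → (run L l s w).ρ = 0 := by
    intro s hs H
    have gen : ∀ w : List (Fin n), Good L i s.h w → (run L l s w).ρ ≤ L - w.length := by
      intro w
      induction w using List.reverseRecOn with
      | nil => intro _; simpa [run] using hs.2.2.1
      | append_singleton u x ih =>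
        intro H
        have ih := ih H.left
        have hl := H.last
        rw [← run_h L l] at hl
        rw [run_snoc]
        generalize run L l s u = t at ih hl ⊢
        have hp : Per L (push t.h x) := by
          rcases hl with hl | hl
          · exact hl
          · exact absurd (idx_lt (push t.h x)) (by omega)
        unfold step
        simp only [List.length_append, List.length_singleton]
        split_ifs with h1 h3
        · simp
        · exact absurd hp h3.1
        · simp only; omega
    have := gen w H
    omega
  have k1 := key s hI H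
  have k2 := key s' hI' (hh ▸ H)
  have c1 := run_inv hl hL hlL s w hI
  have c2 := run_inv hl hL hlL s' w hI'
  refine ⟨by rw [run_h, run_h, hh], by rw [k1, k2], ?_, Or.inl k1⟩
  obtain ⟨p1, p2, _, _⟩ := c1
  obtain ⟨q1, q2, _, _⟩ := c2
  rw [k1] at p1 p2
  rw [k2] at q1 q2
  push_cast at *
  omega

theorem sync_aux {L l : ℕ} (hl : Odd l) (hL : Even L) (hlL : l ≤ L) (d : ℕ) :
    ∀ i, Fintype.card (Fin K → Fin n) ≤ i + d → ∀ s s' : St n K, Inv L s → Inv L s' → s.h = s'.h →
    ∀ w : List (Fin n), w.length = L + d * (2 * L) → Good L i s.h w →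
    ∃ u, u <+: w ∧ Eqv (run L l s u) (run L l s' u) := by
  induction d with
  | zero =>
    intro i hi s s' hs hs' hh w hw H
    exact ⟨w, List.prefix_refl _, calm hl hL hlL s s' hs hs' hh (by simpa using hi) w
      (by simpa using hw) H⟩
  | succ d ih =>
    intro i hi s s' hs hs' hh w hw H
    have hlen : w.length = L + ((L + d * (2 * L)) + L) := by rw [hw]; ring
    -- split the word
    obtain ⟨w1, w2, rfl, hw1⟩ : ∃ w1 w2, w = w1 ++ w2 ∧ w1.length = L :=
      ⟨w.take L, w.drop L, (List.take_append_drop L w).symm, by simp; omega⟩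
    have hw2 : w2.length = (L + d * (2 * L)) + L := by
      simp only [List.length_append] at hlen; omega
    obtain ⟨w3, w4, rfl, hw3⟩ : ∃ w3 w4, w2 = w3 ++ w4 ∧ w3.length = L + d * (2 * L) :=
      ⟨w2.take (L + d * (2 * L)), w2.drop (L + d * (2 * L)), (List.take_append_drop _ w2).symm,
        by simp; omega⟩
    have hw4 : w4.length = L := by
      simp only [List.length_append] at hw2; omega
    set t := run L l s w1 with ht
    set t' := run L l s' w1 with ht'
    have hIt : Inv L t := run_inv hl hL hlL s w1 hs
    have hIt' : Inv L t' := run_inv hl hL hlL s' w1 hs'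
    have hth : t.h = t'.h := by rw [ht, ht', run_h, run_h, hh]
    have hGt : Good L i t.h (w3 ++ w4) := by rw [ht, run_h]; exact H.right
    have hidle : t.ρ = 0 ∨ i ≤ t.r := by
      rcases expire (l := l) s hs.2.2.1 w1 H.left with h | h | h
      · exact Or.inl h
      · exact Or.inr h
      · left; rw [ht]; omega
    have hidle' : t'.ρ = 0 ∨ i ≤ t'.r := by
      rcases expire (l := l) s' hs'.2.2.1 w1 (hh ▸ H.left) with h | h | h
      · exact Or.inl h
      · exact Or.inr h
      · left; rw [ht']; omega
    by_cases hg : Good L (i+1) t.h w3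
    · obtain ⟨u, hu, he⟩ := ih (i+1) (by omega) t t' hIt hIt' hth w3 hw3 hg
      refine ⟨w1 ++ u, ?_, ?_⟩
      · obtain ⟨v, hv⟩ := hu
        exact ⟨v ++ w4, by rw [← hv]; simp⟩
      · rw [run_append, run_append]; exact he
    · unfold Good at hg
      push Not at hg
      obtain ⟨u, hu, hne, hnper, hidx⟩ := hg
      obtain ⟨v, hv⟩ := hu
      obtain ⟨u', x, rfl⟩ : ∃ u' x, u = u' ++ [x] := by
        rcases List.eq_nil_or_concat u with h | ⟨u', x, h⟩
        · exact absurd h hne
        · exact ⟨u', x, by simpa using h⟩
      have hpu : pushes t.h (u' ++ [x]) = push (pushes t.h u') x := by rw [pushes_append]; rfl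
      have hG1 : Good L i t.h ((u' ++ [x]) ++ (v ++ w4)) := by
        rw [← List.append_assoc, hv]; exact hGt
      have hG2 : Good L i t.h u' := by
        have := hG1.left; exact this.left
      have hidx' : idx (push (pushes t.h u') x) = i := by
        have h1 := hG1.left.last
        rw [hpu] at hnper hidx
        have h2 := h1.resolve_left hnper
        omega
      rw [hpu] at hnper
      set y := run L l t u' with hy
      set y' := run L l t' u' with hy'
      have hyh : y.h = pushes t.h u' := by rw [hy, run_h]
      have hyh' : y'.h = pushes t.h u' := by rw [hy', run_h, hth]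
      have ky : y.ρ = 0 ∨ i ≤ y.r := keep (l := l) t u' hG2 hidle
      have ky' : y'.ρ = 0 ∨ i ≤ y'.r := keep (l := l) t' u' (hth ▸ hG2) hidle'
      have ty := trigger (L := L) (l := l) y x ky (by rw [hyh]; exact hnper)
        (by rw [hyh]; exact hidx')
      have ty' := trigger (L := L) (l := l) y' x ky' (by rw [hyh']; exact hnper)
        (by rw [hyh']; exact hidx')
      have hzh : (step L l y x).h = push (pushes t.h u') x := by rw [step_h, hyh]
      have hzh' : (step L l y' x).h = push (pushes t.h u') x := by rw [step_h, hyh']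
      -- the next `L` letters
      obtain ⟨v1, v2, hv12, hv1⟩ : ∃ v1 v2, v ++ w4 = v1 ++ v2 ∧ v1.length = L :=
        ⟨(v ++ w4).take L, (v ++ w4).drop L, (List.take_append_drop L _).symm, by simp; omega⟩
      have hG3 : Good L i (push (pushes t.h u') x) v1 := by
        have := hG1.right
        rw [hv12, hpu] at this
        exact this.left
      have hIy : Inv L y := run_inv hl hL hlL t u' hIt
      have hIy' : Inv L y' := run_inv hl hL hlL t' u' hIt'
      have fin := finish (i := i) hl hL hlL (step L l y x) (step L l y' x)
        (step_inv hl hL hlL _ _ hIy) (step_inv hl hL hlL _ _ hIy')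
        (by rw [hzh, hzh']) ty.1 ty.2 ty'.1 ty'.2 (by rw [hzh]; exact hnper)
        (by rw [hzh]; exact hidx') v1 hv1 (by rw [hzh]; exact hG3)
      refine ⟨w1 ++ ((u' ++ [x]) ++ v1), ?_, ?_⟩
      · refine ⟨v2, ?_⟩
        have : w3 ++ w4 = (u' ++ [x]) ++ (v1 ++ v2) := by rw [← hv12, ← List.append_assoc, hv]
        rw [this]; simp
      · have e : ∀ q : St n K, run L l q ((u' ++ [x]) ++ v1) =
            run L l (step L l (run L l q u') x) v1 := by
          intro q; rw [run_append, run_snoc]
        rw [run_append, run_append (s := s'), e, e]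
        exact fin

theorem sync {L l : ℕ} (hl : Odd l) (hL : Even L) (hlL : l ≤ L) (s s' : St n K)
    (hs : Inv L s) (hs' : Inv L s') (w : List (Fin n))
    (hw : w.length = K + (L + Fintype.card (Fin K → Fin n) * (2 * L))) :
    Eqv (run L l s w) (run L l s' w) := by
  obtain ⟨w1, w2, rfl, hw1⟩ : ∃ w1 w2, w = w1 ++ w2 ∧ w1.length = K :=
    ⟨w.take K, w.drop K, (List.take_append_drop K w).symm, by simp; omega⟩
  have hw2 : w2.length = L + Fintype.card (Fin K → Fin n) * (2 * L) := by
    simp only [List.length_append] at hw; omega
  have hh : (run L l s w1).h = (run L l s' w1).h := by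
    rw [run_h, run_h]; exact pushes_eq _ _ _ (by omega)
  obtain ⟨u, ⟨v, rfl⟩, he⟩ := sync_aux (l := l) hl hL hlL (Fintype.card (Fin K → Fin n)) 0 (by omega)
    (run L l s w1) (run L l s' w1) (run_inv hl hL hlL _ _ hs) (run_inv hl hL hlL _ _ hs') hh w2 hw2
    (fun _ _ _ => Or.inr (Nat.zero_le _))
  rw [← List.append_assoc, run_append, run_append (s := s')]
  apply Eqv.run
  rw [run_append, run_append]
  exact he

end Automaton

/-- **Local loop lemma for odd closed walks.** It is enough that `f` maps the tuples
`(b, …, b, a, b, …, b)` to neighbours of `a`, where `a, b` start an odd closed walk. -/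
theorem loop_of_walk {A : Type*} {n l : ℕ} (hn : 0 < n) (hl : Odd l) (R : A → A → Prop)
    (hsymm : ∀ x y, R x y → R y x) (α : ℤ → A) (hper : ∀ k, α (k + l) = α k)
    (hα : ∀ k, R (α k) (α (k + 1)))
    (f : (Fin n → A) → A) (idem : ∀ a, f (fun _ => a) = a)
    (compat : ∀ x y : Fin n → A, (∀ i, R (x i) (y i)) → R (f x) (f y))
    (habs : ∀ j : Fin n, R (α 0) (f (Function.update (fun _ => α 1) j (α 0)))) :
    ∃ x, R x x := by
  classical
  set L := 2 * l with hLdef
  set K := 2 * L with hKdef
  have hL : Even L := ⟨l, by omega⟩
  have hlL : l ≤ L := by omega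
  have hrel : ∀ k, α (relift l k) = α k := by
    intro k
    unfold relift
    split_ifs
    · rfl
    · rw [← hper (k - l)]; congr 1; ring
    · exact hper k
  have htow : ∀ k, R (α k) (α (towards k)) := by
    intro k
    unfold towards
    split_ifs
    · apply hsymm
      have := hα (k - 1)
      rwa [sub_add_cancel] at this
    · exact hα k
  refine loop_of_automaton (S := St n K) R f idem compat (Inv L) (step L l)
    (fun s j hs => step_inv hl hL hlL s j hs) (fun s => α s.k) ?_
    ⟨fun _ => ⟨0, hn⟩, 0, 0, 0⟩ ⟨by simp, by simp, by simp, by simp⟩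
    (K + (L + Fintype.card (Fin K → Fin n) * (2 * L))) ?_
  · intro s hs
    by_cases h0 : s.ρ = 0
    · -- idle state
      have hk : s.k = 0 := by
        obtain ⟨a, b, _, _⟩ := hs
        rw [h0] at a b
        push_cast at a b
        omega
      have hstep : ∀ j, α (step L l s j).k = if Per L (push s.h j) then α 0 else α 1 := by
        intro j
        unfold step
        rw [if_pos h0]
        split_ifs
        · rfl
        · exact hrel 1
      show R (α s.k) (f fun j => α (step L l s j).k)
      rw [hk]
      simp only [hstep]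
      by_cases hex : ∃ j, Per L (push s.h j)
      · obtain ⟨j, hj⟩ := hex
        have : (fun i => if Per L (push s.h i) then α 0 else α 1) =
            Function.update (fun _ => α 1) j (α 0) := by
          funext i
          by_cases hij : i = j
          · subst hij; simp [hj]
          · rw [Function.update_of_ne hij, if_neg]
            intro hi
            exact hij (per_unique (by omega) s.h i j hi hj)
        rw [this]
        exact habs j
      · push Not at hex
        simp only [hex, if_false]
        rw [idem]
        exact hα 0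
    · -- executing state
      have hstep : ∀ j, α (step L l s j).k = α (towards s.k) := by
        intro j
        unfold step
        rw [if_neg h0]
        split_ifs
        · exact hrel _
        · rfl
      show R (α s.k) (f fun j => α (step L l s j).k)
      simp only [hstep]
      rw [idem]
      exact htow _
  · intro s s' w hs hs' hw
    have := sync (l := l) hl hL hlL s s' hs hs' w hw
    show α (run L l s w).k = α (run L l s' w).k
    rw [this.2.2.1]

end Pool.Agent.J6H42.LocalLoop
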